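import Mathlib

set_option autoImplicit false

/-! A zero-free entire function of the form `1 - ∑ c_n z ^ (n+1)` with `|c_n| ≤ C / 2 ^ (n ^ 2)` is
constant. -/

namespace Pool.Agent.W349.RT

open Filter Topology Metric Complex

lemma summ (x : ℝ) (hx : 0 < x) :
    Summable (fun n : ℕ => ((n + 1).factorial : ℝ) * x ^ (n + 1) / 2 ^ (n ^ 2)) := by
  refine summable_of_ratio_test_tendsto_lt_one (l := 0) zero_lt_one
    (Eventually.of_forall fun n => by positivity) ?_
  have h1 : ∀ n : ℕ, ‖((n + 1 + 1).factorial : ℝ) * x ^ (n + 1 + 1) / 2 ^ ((n + 1) ^ 2)‖ /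
      ‖((n + 1).factorial : ℝ) * x ^ (n + 1) / 2 ^ (n ^ 2)‖ =
      (((n : ℝ) + 2) * (1 / 4) ^ n) * (x / 2) := by
    intro n
    rw [Real.norm_of_nonneg (by positivity), Real.norm_of_nonneg (by positivity),
      Nat.factorial_succ (n + 1)]
    have h2 : (2:ℝ) ^ ((n + 1) ^ 2) = 2 ^ (n ^ 2) * (4 ^ n * 2) := by
      rw [show (n + 1) ^ 2 = n ^ 2 + (2 * n + 1) by ring, pow_add, pow_succ 2 (2 * n), pow_mul]
      norm_num
    rw [h2, one_div, inv_pow]
    have h3 : ((n + 1).factorial : ℝ) ≠ 0 := by positivity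
    push_cast
    field_simp
    ring
  simp only [h1]
  have h4 : Tendsto (fun n : ℕ => ((n : ℝ) + 2) * (1 / 4) ^ n) atTop (𝓝 0) := by
    have h5 := tendsto_self_mul_const_pow_of_lt_one (r := (1 / 4 : ℝ)) (by norm_num) (by norm_num)
    have h6 := (tendsto_pow_atTop_nhds_zero_of_lt_one (r := (1 / 4 : ℝ)) (by norm_num)
      (by norm_num)).const_mul 2
    have := h5.add h6
    simp only [mul_zero, add_zero] at this
    refine this.congr fun n => ?_
    ring
  simpa using h4.mul_const (x / 2)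

section

variable (c : ℕ → ℂ) (C : ℝ) (hc : ∀ n, ‖c n‖ ≤ C / 2 ^ (n ^ 2))

include hc

lemma C_nonneg : 0 ≤ C := by
  have := (norm_nonneg _).trans (hc 0)
  simpa using this

/-- the bound of the terms -/
lemma term_bd (ε : ℝ) (hε : 0 < ε) (z : ℂ) (n : ℕ) :
    ‖c n * z ^ (n + 1)‖ ≤ C * Real.exp (ε * ‖z‖) *
      (((n + 1).factorial : ℝ) * (1 / ε) ^ (n + 1) / 2 ^ (n ^ 2)) := by
  have h1 := Real.pow_div_factorial_le_exp (x := ε * ‖z‖) (by positivity) (n + 1)
  rw [div_le_iff₀ (by positivity), mul_pow] at h1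
  rw [norm_mul, norm_pow]
  have h2 : ‖z‖ ^ (n + 1) ≤ Real.exp (ε * ‖z‖) * (((n + 1).factorial : ℝ) * (1 / ε) ^ (n + 1)) := by
    rw [one_div, inv_pow, ← mul_assoc, ← div_eq_mul_inv, le_div_iff₀ (by positivity)]
    linarith
  calc ‖c n‖ * ‖z‖ ^ (n + 1) ≤ (C / 2 ^ (n ^ 2)) *
        (Real.exp (ε * ‖z‖) * (((n + 1).factorial : ℝ) * (1 / ε) ^ (n + 1))) :=
      mul_le_mul (hc n) h2 (by positivity) ((norm_nonneg _).trans (hc n))
    _ = _ := by ring

lemma radius_top : (FormalMultilinearSeries.ofScalars ℂ c).radius = ⊤ := by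
  refine FormalMultilinearSeries.radius_eq_top_of_summable_norm _ fun r => ?_
  have hC := C_nonneg c C hc
  have hs := (summ ((r:ℝ) + 1) (by positivity)).mul_left C
  refine Summable.of_nonneg_of_le (fun n => by positivity) (fun n => ?_) hs
  have h1 : ‖FormalMultilinearSeries.ofScalars ℂ c n‖ = ‖c n‖ := by
    simp [FormalMultilinearSeries.ofScalars, norm_smul]
  rw [h1]
  have h2 : (r:ℝ) ^ n ≤ ((n + 1).factorial : ℝ) * ((r:ℝ) + 1) ^ (n + 1) := by
    have h3 : (1:ℝ) ≤ ((n + 1).factorial : ℝ) := by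
      exact_mod_cast Nat.one_le_iff_ne_zero.2 (Nat.factorial_ne_zero _)
    have h4 : (r:ℝ) ^ n ≤ ((r:ℝ) + 1) ^ (n + 1) := by
      calc (r:ℝ) ^ n ≤ ((r:ℝ) + 1) ^ n := pow_le_pow_left₀ r.coe_nonneg (by linarith) n
        _ ≤ ((r:ℝ) + 1) ^ (n + 1) := pow_le_pow_right₀ (by linarith [r.coe_nonneg]) (Nat.le_succ n)
    calc (r:ℝ) ^ n ≤ 1 * ((r:ℝ) + 1) ^ (n + 1) := by rw [one_mul]; exact h4
      _ ≤ _ := mul_le_mul_of_nonneg_right h3 (by positivity)
  calc ‖c n‖ * (r:ℝ) ^ n ≤ (C / 2 ^ (n ^ 2)) *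
        (((n + 1).factorial : ℝ) * ((r:ℝ) + 1) ^ (n + 1)) :=
      mul_le_mul (hc n) h2 (by positivity) ((norm_nonneg _).trans (hc n))
    _ = _ := by ring

lemma fps : HasFPowerSeriesOnBall (fun z : ℂ => ∑' n, c n * z ^ n)
    (FormalMultilinearSeries.ofScalars ℂ c) 0 ⊤ := by
  have h := (FormalMultilinearSeries.ofScalars ℂ c).hasFPowerSeriesOnBall
    (by rw [radius_top c C hc]; exact ENNReal.zero_lt_top)
  rw [radius_top c C hc] at h
  have h2 : (FormalMultilinearSeries.ofScalars ℂ c).sum = fun z : ℂ => ∑' n, c n * z ^ n := by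
    funext z
    unfold FormalMultilinearSeries.sum
    refine tsum_congr fun n => ?_
    rw [FormalMultilinearSeries.ofScalars_apply_eq, smul_eq_mul]
  rwa [h2] at h

lemma hfun (z : ℂ) : 1 - ∑' n, c n * z ^ (n + 1) = 1 - z * ∑' n, c n * z ^ n := by
  rw [← tsum_mul_left]
  congr 1
  exact tsum_congr fun n => by ring

lemma h_diff : Differentiable ℂ (fun z : ℂ => 1 - ∑' n, c n * z ^ (n + 1)) := by
  have h1 : Differentiable ℂ (fun z : ℂ => ∑' n, c n * z ^ n) := by
    intro z
    exact ((fps c C hc).analyticAt_of_mem (by simp)).differentiableAt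
  have h2 : (fun z : ℂ => 1 - ∑' n, c n * z ^ (n + 1)) = fun z => 1 - z * ∑' n, c n * z ^ n :=
    funext fun z => hfun c C hc z
  rw [h2]
  exact (differentiable_const _).sub (differentiable_id.mul h1)

lemma growth (ε : ℝ) (hε : 0 < ε) : ∃ A : ℝ, 1 ≤ A ∧ ∀ z : ℂ,
    ‖1 - ∑' n, c n * z ^ (n + 1)‖ ≤ A * Real.exp (ε * ‖z‖) := by
  have hC := C_nonneg c C hc
  have hs := summ (1 / ε) (by positivity)
  set U := ∑' n : ℕ, ((n + 1).factorial : ℝ) * (1 / ε) ^ (n + 1) / 2 ^ (n ^ 2) with hU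
  have hU0 : 0 ≤ U := tsum_nonneg fun n => by positivity
  refine ⟨1 + C * U, by nlinarith [mul_nonneg hC hU0], fun z => ?_⟩
  have h1 : ‖∑' n, c n * z ^ (n + 1)‖ ≤ C * Real.exp (ε * ‖z‖) * U := by
    rw [hU, ← tsum_mul_left]
    exact tsum_of_norm_bounded (hs.mul_left _).hasSum fun n => term_bd c C hc ε hε z n
  have h2 : 1 ≤ Real.exp (ε * ‖z‖) := Real.one_le_exp (by positivity)
  calc ‖1 - ∑' n, c n * z ^ (n + 1)‖ ≤ ‖(1:ℂ)‖ + ‖∑' n, c n * z ^ (n + 1)‖ := norm_sub_le _ _
    _ ≤ 1 + C * Real.exp (ε * ‖z‖) * U := by rw [norm_one]; linarith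
    _ ≤ _ := by nlinarith

end

/-- A zero-free differentiable function on a ball, equal to `1` at the centre, is an
exponential. -/
lemma exists_log (h : ℂ → ℂ) (hd : Differentiable ℂ h) (hz : ∀ z, h z ≠ 0) (h0 : h 0 = 1)
    (R : ℝ) (hR : 0 < R) :
    ∃ g : ℂ → ℂ, g 0 = 0 ∧ DifferentiableOn ℂ g (ball 0 R) ∧ ∀ z ∈ ball (0:ℂ) R, exp (g z) = h z := by
  have hd' : Differentiable ℂ (deriv h) := fun z =>
    (hd.analyticAt z).deriv.differentiableAt
  have h1 : DifferentiableOn ℂ (fun z => deriv h z / h z) (ball 0 R) :=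
    (hd'.div hd hz).differentiableOn
  obtain ⟨g, hg0, hg⟩ := (h1.isExactOn_ball).with_val_at 0 0
  refine ⟨g, hg0, fun z hz => (hg z hz).differentiableAt.differentiableWithinAt, ?_⟩
  have h2 : ∀ z ∈ ball (0:ℂ) R, HasDerivAt (fun z => h z * exp (-g z)) 0 z := by
    intro z hzR
    have h3 := (hd z).hasDerivAt.mul ((hg z hzR).neg.cexp)
    refine h3.congr_deriv ?_
    have := hz z
    field_simp
    ring
  have h3 : ∀ z ∈ ball (0:ℂ) R, h z * exp (-g z) = h 0 * exp (-g 0) := by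
    intro z hzR
    refine isOpen_ball.is_const_of_deriv_eq_zero (convex_ball 0 R).isPreconnected
      (fun w hw => (h2 w hw).differentiableAt.differentiableWithinAt)
      (fun w hw => (h2 w hw).deriv) hzR (mem_ball_self hR)
  intro z hzR
  have h4 := h3 z hzR
  rw [hg0, h0, neg_zero, exp_zero, one_mul, exp_neg] at h4
  have h5 : exp (g z) ≠ 0 := exp_ne_zero _
  field_simp at h4
  exact h4.symm

theorem coeff_zero_of_zero_free (c : ℕ → ℂ) (C : ℝ) (hc : ∀ n, ‖c n‖ ≤ C / 2 ^ (n ^ 2))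
    (hz : ∀ z : ℂ, 1 - ∑' n, c n * z ^ (n + 1) ≠ 0) : ∀ n, c n = 0 := by
  set h : ℂ → ℂ := fun z => 1 - ∑' n, c n * z ^ (n + 1) with hh
  have hd : Differentiable ℂ h := h_diff c C hc
  have h0 : h 0 = 1 := by simp [hh]
  have hone : ∀ z, h z = 1 := by
    intro z
    -- it suffices to bound by every small number
    have key : ∀ η : ℝ, 0 < η → η ≤ 1 → ‖h z - 1‖ ≤ 2 * η := by
      intro η hη hη1
      set ε := η / (8 * (‖z‖ + 1)) with hε
      have hε0 : 0 < ε := by positivity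
      obtain ⟨A, hA, hgr⟩ := growth c C hc ε hε0
      have hL : 0 ≤ Real.log A := Real.log_nonneg hA
      set R := 2 * ‖z‖ + Real.log A / ε + 1 with hR
      have hR0 : 0 < R := by positivity
      obtain ⟨g, hg0, hgd, hg⟩ := exists_log h hd hz h0 R hR0
      have hM : 0 < Real.log A + ε * R := by positivity
      have hmaps : Set.MapsTo g (ball 0 R) {w | w.re ≤ Real.log A + ε * R} := by
        intro w hw
        have h1 := hgr w
        change ‖h w‖ ≤ _ at h1
        rw [← hg w hw, norm_exp] at h1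
        have h2 : A * Real.exp (ε * ‖w‖) = Real.exp (Real.log A + ε * ‖w‖) := by
          rw [Real.exp_add, Real.exp_log (by linarith)]
        rw [h2, Real.exp_le_exp] at h1
        have h3 : ‖w‖ ≤ R := (mem_ball_zero_iff.1 hw).le
        have h4 := mul_le_mul_of_nonneg_left h3 hε0.le
        show (g w).re ≤ _
        linarith
      have hzR : ‖z‖ < R := by
        have : 0 ≤ Real.log A / ε := by positivity
        have := norm_nonneg z
        linarith
      have h5 := borelCaratheodory_zero hM hgd hmaps hR0 (mem_ball_zero_iff.2 hzR) hg0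
      have h6 : Real.log A ≤ ε * R := by
        have : ε * (Real.log A / ε) = Real.log A := by field_simp
        rw [hR]
        have h7 : 0 ≤ ε * ‖z‖ := by positivity
        nlinarith
      have h7 : R ≤ 2 * (R - ‖z‖) := by
        have : 0 ≤ Real.log A / ε := by positivity
        have := norm_nonneg z
        linarith
      have h8 : ‖g z‖ ≤ η := by
        have h9 : 0 < R - ‖z‖ := by linarith
        refine h5.trans ?_
        rw [div_le_iff₀ h9]
        have h10 : 2 * (Real.log A + ε * R) * ‖z‖ ≤ 2 * (2 * ε * R) * ‖z‖ :=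
          mul_le_mul_of_nonneg_right (by linarith) (norm_nonneg z)
        have h11 : 2 * (2 * ε * R) * ‖z‖ ≤ 8 * ε * (R - ‖z‖) * (‖z‖ + 1) := by
          have hz0 := norm_nonneg z
          have : 2 * (2 * ε * R) * ‖z‖ ≤ 2 * (2 * ε * (2 * (R - ‖z‖))) * ‖z‖ := by
            have := mul_le_mul_of_nonneg_left h7 hε0.le
            nlinarith
          have h12 : 0 ≤ ε * (R - ‖z‖) := by positivity
          nlinarith
        have h13 : 8 * ε * (R - ‖z‖) * (‖z‖ + 1) = η * (R - ‖z‖) := by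
          rw [hε]
          have : ‖z‖ + 1 ≠ 0 := by positivity
          field_simp
        linarith
      rw [← hg z (mem_ball_zero_iff.2 hzR)]
      exact (norm_exp_sub_one_le (h8.trans hη1)).trans (by linarith)
    have h1 : ‖h z - 1‖ ≤ 0 := by
      refine le_of_forall_pos_le_add fun η hη => ?_
      have := key (min (η / 2) 1) (lt_min (by linarith) one_pos) (min_le_right _ _)
      have h2 := min_le_left (η / 2) 1
      linarith
    exact sub_eq_zero.1 (norm_le_zero_iff.1 h1)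
  -- uniqueness of coefficients
  have hf := fps c C hc
  have hf0 : ∀ z : ℂ, z ≠ 0 → ∑' n, c n * z ^ n = 0 := by
    intro z hz0
    have h1 := hone z
    simp only [hh] at h1
    rw [hfun c C hc] at h1
    have h2 : z * ∑' n, c n * z ^ n = 0 := by linear_combination -h1
    exact (mul_eq_zero.1 h2).resolve_left hz0
  have hcont : Continuous (fun z : ℂ => ∑' n, c n * z ^ n) := by
    rw [continuous_iff_continuousAt]
    intro z
    exact (hf.analyticAt_of_mem (by simp)).continuousAt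
  have hzero : (fun z : ℂ => ∑' n, c n * z ^ n) = 0 := by
    have h1 : Set.EqOn (fun z : ℂ => ∑' n, c n * z ^ n) 0 ({0}ᶜ : Set ℂ) := fun z hz => hf0 z hz
    have h2 : Dense ({0}ᶜ : Set ℂ) := dense_compl_singleton 0
    exact hcont.ext_on h2 continuous_zero h1
  have hp := hf.hasFPowerSeriesAt
  rw [hzero] at hp
  have := hp.eq_zero
  rw [FormalMultilinearSeries.ofScalars_series_eq_zero] at this
  exact fun n => congrFun this n

end Pool.Agent.W349.RT
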